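import Pool.Agent.N343.Sch.Moments

set_option autoImplicit false

/-!
# MP_b1e97f_co: the Schrijver number of `G_n ⊠ G_n` is not polynomially bounded

The definitions (`acuteGraph`, `strongProduct`, `schrijverValues`, `schrijver`) are in
`Pool.Agent.N343.Sch.Defs`.

Idea. Let `P_ρ` be the noise kernel on the cube with eigenvalues `ρ ^ k`, `-1 ≤ ρ ≤ 1`. For a measure
with finitely many atoms `(ρ, σ)`, each with a coordinate at most `-h`, and with all moments at least
`-1/2`, the mixture of the kernels `P_ρ ⊗ P_σ` becomes feasible (after adding a multiple of the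
identity and deleting the few entries at the edges and on the diagonal). There are such measures of
mass `n ^ (c log n)`: put mass `8 ^ (-k^2-l^2)` at `(± 64^k, ± 64^l)`, with the signs chosen such that
the moment `(k, l)` of this atom is positive, `0 ≤ k, l ≤ D`, and scale.
-/

namespace Pool.Agent.Results.MP_b1e97f_co.QuasiPolynomialGrowth

open Pool.Agent.N343.Sch

/-- `ϑ'(G_n ⊠ G_n) ≥ exp ((log n)^2 / 267) / 4` for all `n ≥ 1`; so there is no constant `C > 0` with
`ϑ'(G_n ⊠ G_n) ≤ n ^ C` for all `n ≥ 2`. -/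
theorem result :
    (∀ n : ℕ, 1 ≤ n → Real.exp (Real.log n ^ 2 / 267) / 4 ≤
      schrijver (strongProduct (acuteGraph n) (acuteGraph n))) ∧
    ¬ ∃ C : ℝ, 0 < C ∧ ∀ n : ℕ, 2 ≤ n →
      schrijver (strongProduct (acuteGraph n) (acuteGraph n)) ≤ (n : ℝ) ^ C := by
  refine ⟨fun n hn => main_bound hn, ?_⟩
  rintro ⟨C, -, h⟩
  obtain ⟨n, hn, h1⟩ := superpolynomial C
  exact absurd (h n hn) (not_le.2 h1)

end Pool.Agent.Results.MP_b1e97f_co.QuasiPolynomialGrowth
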